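import Pool.Agent.MP_40db9a_an.H47.All

open MeasureTheory

namespace Pool.Agent.Results.MP_40db9a_an.SharpHoelder

/-- Kernel `K x = c ‖x‖^(α-d-1) x` (the case `T = id`).  The equivalence of Q1 holds for all
Borel `Φ` that are `β`-Hölder on the sphere if and only if `α ≥ 1` or `α + β > 1`. -/
theorem result :
    ∀ (d : ℕ), 2 ≤ d → ∀ α : ℝ, 0 < α → α < (d : ℝ) → ∀ c : ℝ, c ≠ 0 →
    ∀ β : ℝ, 0 ≤ β → β ≤ 1 →
      ((∀ Φ : EuclideanSpace ℝ (Fin d) → ℝ, Measurable Φ →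
          (∀ t : ℝ, 0 < t → ∀ y, Φ (t • y) = t ^ ((d : ℝ) / ((d : ℝ) - α)) * Φ y) →
          (∃ N : ℝ, ∀ u v : EuclideanSpace ℝ (Fin d), ‖u‖ = 1 → ‖v‖ = 1 →
            |Φ u - Φ v| ≤ N * ‖u - v‖ ^ β) →
          ((∃ C : ℝ, ∀ f : EuclideanSpace ℝ (Fin d) → ℝ,
              ContDiff ℝ ((⊤ : ℕ∞) : WithTop ℕ∞) f → HasCompactSupport f → ∫ x, f x = 0 →
              |∫ x, Φ (∫ y, f y • ((c * ‖x - y‖ ^ (α - (d : ℝ) - 1)) • (x - y)))| ≤
                C * (∫ x, |f x|) ^ ((d : ℝ) / ((d : ℝ) - α))) ↔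
            ∫ θ, Φ (θ : EuclideanSpace ℝ (Fin d))
              ∂((volume : Measure (EuclideanSpace ℝ (Fin d))).toSphere) = 0)) ↔
        (1 ≤ α ∨ 1 < α + β)) := by
  intro d hd α h0 h1 c hc β hβ0 hβ1
  have key := Pool.Agent.MP_40db9a_an.H47.all_main (d := d) (a := (d : ℝ) - α) (β := β) hd
    (by linarith) (by linarith) hβ0 hβ1
  have e1 : α - (d : ℝ) - 1 = -(((d : ℝ) - α) + 1) := by ring
  have e2 : (d : ℝ) - ((d : ℝ) - α) = α := by ring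
  rw [e2] at key
  rw [← key, e1]
  refine forall_congr' fun Φ => forall_congr' fun _ => forall_congr' fun _ =>
    forall_congr' fun _ => ?_
  rw [Pool.Agent.MP_40db9a_an.H47.const_ineq hc Φ]

end Pool.Agent.Results.MP_40db9a_an.SharpHoelder
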